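import Pool.Agent.D0H61.CC.Stm

/-! Van der Corput's lemma (first and second derivative test) and `S_OSC`. -/

set_option autoImplicit false

namespace Pool.Agent.D0H9.CC

open MeasureTheory Set Pool.Agent.D0H61.CC

theorem norm_ex (x : ℝ) : ‖ex x‖ = 1 := by
  unfold ex
  exact Complex.norm_exp_ofReal_mul_I x

theorem ex_ne (x : ℝ) : ex x ≠ 0 := Complex.exp_ne_zero _

theorem conj_ex (x : ℝ) : (starRingEnd ℂ) (ex x) = ex (-x) := by
  unfold ex
  rw [← Complex.exp_conj]
  congr 1
  simp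

theorem hasDerivAt_ex {φ : ℝ → ℝ} {v t : ℝ} (h : HasDerivAt φ v t) :
    HasDerivAt (fun t => ex (φ t)) (ex (φ t) * ((v : ℂ) * Complex.I)) t := by
  unfold ex
  exact (h.ofReal_comp.mul_const Complex.I).cexp

theorem contOn_ex {φ v : ℝ → ℝ} {s : Set ℝ} (hφ : ∀ t ∈ s, HasDerivAt φ (v t) t) :
    ContinuousOn (fun t => ex (φ t)) s :=
  fun t ht => (hasDerivAt_ex (hφ t ht)).continuousAt.continuousWithinAt

/-- first derivative test -/
theorem vdc1 {φ v w : ℝ → ℝ} {x y m : ℝ} (hxy : x ≤ y)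
    (hφ : ∀ t ∈ Icc x y, HasDerivAt φ (v t) t) (hv : ∀ t ∈ Icc x y, HasDerivAt v (w t) t)
    (hw : ContinuousOn w (Icc x y)) (hm : 0 < m) (hw0 : ∀ t ∈ Icc x y, 0 ≤ w t)
    (hvm : (∀ t ∈ Icc x y, m ≤ v t) ∨ (∀ t ∈ Icc x y, v t ≤ -m)) :
    ‖∫ t in x..y, ex (φ t)‖ ≤ 3 / m := by
  have habs : ∀ t ∈ Icc x y, m ≤ |v t| := by
    intro t ht
    rcases hvm with h | h
    · exact (h t ht).trans (le_abs_self _)
    · have := h t ht
      rw [abs_of_nonpos (by linarith)]
      linarith
  have hne : ∀ t ∈ Icc x y, v t ≠ 0 := by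
    intro t ht h0
    have := habs t ht
    rw [h0, abs_zero] at this
    linarith
  have hvc : ContinuousOn v (Icc x y) := fun t ht => (hv t ht).continuousAt.continuousWithinAt
  have hU : uIcc x y = Icc x y := uIcc_of_le hxy
  have hH : ∀ t ∈ uIcc x y, HasDerivAt (fun t => ex (φ t) / ((v t : ℂ) * Complex.I))
      (ex (φ t) - ex (φ t) * ((w t : ℂ) * Complex.I) / ((v t : ℂ) * Complex.I) ^ 2) t := by
    intro t ht
    rw [hU] at ht
    have h0 : ((v t : ℂ) * Complex.I) ≠ 0 :=
      mul_ne_zero (by exact_mod_cast hne t ht) Complex.I_ne_zero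
    have h := (hasDerivAt_ex (hφ t ht)).div ((hv t ht).ofReal_comp.mul_const Complex.I) h0
    refine h.congr_deriv ?_
    have h1 : ((v t : ℝ) : ℂ) ≠ 0 := by exact_mod_cast hne t ht
    field_simp
  have hi1 : IntervalIntegrable (fun t => ex (φ t)) volume x y :=
    (by rw [hU]; exact contOn_ex hφ : ContinuousOn _ (uIcc x y)).intervalIntegrable
  have hi2 : IntervalIntegrable
      (fun t => ex (φ t) * ((w t : ℂ) * Complex.I) / ((v t : ℂ) * Complex.I) ^ 2) volume x y := by
    apply ContinuousOn.intervalIntegrable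
    rw [hU]
    apply ContinuousOn.div
    · exact (contOn_ex hφ).mul ((Complex.continuous_ofReal.comp_continuousOn hw).mul continuousOn_const)
    · exact ((Complex.continuous_ofReal.comp_continuousOn hvc).mul continuousOn_const).pow 2
    · intro t ht
      exact pow_ne_zero _ (mul_ne_zero (by exact_mod_cast hne t ht) Complex.I_ne_zero)
  have hI := intervalIntegral.integral_eq_sub_of_hasDerivAt hH (hi1.sub hi2)
  rw [intervalIntegral.integral_sub hi1 hi2] at hI
  have hI' : ∫ t in x..y, ex (φ t) = (ex (φ y) / ((v y : ℂ) * Complex.I) -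
      ex (φ x) / ((v x : ℂ) * Complex.I)) +
      ∫ t in x..y, ex (φ t) * ((w t : ℂ) * Complex.I) / ((v t : ℂ) * Complex.I) ^ 2 := by
    rw [← hI]; ring
  have hb : ∀ t ∈ Icc x y, ‖ex (φ t) / ((v t : ℂ) * Complex.I)‖ ≤ 1 / m := by
    intro t ht
    rw [norm_div, norm_ex, norm_mul, Complex.norm_I, mul_one, Complex.norm_real, Real.norm_eq_abs]
    exact div_le_div₀ zero_le_one le_rfl hm (habs t ht)
  have hwi : IntervalIntegrable (fun t => w t / (v t) ^ 2) volume x y := by
    apply ContinuousOn.intervalIntegrable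
    rw [hU]
    exact hw.div (hvc.pow 2) fun t ht => pow_ne_zero _ (hne t ht)
  have hint : ‖∫ t in x..y, ex (φ t) * ((w t : ℂ) * Complex.I) / ((v t : ℂ) * Complex.I) ^ 2‖
      ≤ 1 / m := by
    have h1 : ‖∫ t in x..y, ex (φ t) * ((w t : ℂ) * Complex.I) / ((v t : ℂ) * Complex.I) ^ 2‖
        ≤ ∫ t in x..y, w t / (v t) ^ 2 := by
      apply intervalIntegral.norm_integral_le_of_norm_le hxy _ hwi
      refine Filter.Eventually.of_forall ?_
      intro t ht
      have ht' : t ∈ Icc x y := ⟨ht.1.le, ht.2⟩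
      rw [norm_div, norm_mul, norm_mul, norm_ex, Complex.norm_I, norm_pow, norm_mul, Complex.norm_I,
        mul_one, mul_one, one_mul, Complex.norm_real, Complex.norm_real, Real.norm_eq_abs,
        Real.norm_eq_abs, sq_abs, abs_of_nonneg (hw0 t ht')]
    have hder : ∀ t ∈ uIcc x y, HasDerivAt (fun t => -(v t)⁻¹) (w t / (v t) ^ 2) t := by
      intro t ht
      rw [hU] at ht
      refine ((hv t ht).inv (hne t ht)).neg.congr_deriv ?_
      ring
    rw [intervalIntegral.integral_eq_sub_of_hasDerivAt hder hwi] at h1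
    refine h1.trans ?_
    have hx : x ∈ Icc x y := ⟨le_refl _, hxy⟩
    have hy : y ∈ Icc x y := ⟨hxy, le_refl _⟩
    rcases hvm with h | h
    · have h1 := h x hx
      have h2 := h y hy
      have h3 : (v x)⁻¹ ≤ 1 / m := by
        rw [one_div]; exact inv_anti₀ hm h1
      have h4 : 0 < (v y)⁻¹ := inv_pos.mpr (by linarith)
      linarith
    · have h1 := h x hx
      have h2 := h y hy
      have h3 : -(v y)⁻¹ ≤ 1 / m := by
        rw [one_div, ← inv_neg]; exact inv_anti₀ hm (by linarith)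
      have h4 : (v x)⁻¹ < 0 := inv_lt_zero.mpr (by linarith)
      linarith
  rw [hI']
  refine (norm_add_le _ _).trans ?_
  have h5 := norm_sub_le (ex (φ y) / ((v y : ℂ) * Complex.I)) (ex (φ x) / ((v x : ℂ) * Complex.I))
  have h6 := hb x ⟨le_refl _, hxy⟩
  have h7 := hb y ⟨hxy, le_refl _⟩
  have h8 : (3 : ℝ) / m = 1 / m + 1 / m + 1 / m := by ring
  linarith

theorem len_le {φ : ℝ → ℝ} {x y : ℝ} (hxy : x ≤ y) : ‖∫ t in x..y, ex (φ t)‖ ≤ y - x := by
  have h := intervalIntegral.norm_integral_le_of_norm_le_const (a := x) (b := y)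
    (f := fun t => ex (φ t)) (C := 1) (by
      intro t _
      exact (norm_ex _).le)
  rw [abs_of_nonneg (by linarith)] at h
  linarith

theorem v_mono {v w : ℝ → ℝ} {x y c : ℝ} (hv : ∀ t ∈ Icc x y, HasDerivAt v (w t) t)
    (hc : ∀ t ∈ Icc x y, c ≤ w t) {s t : ℝ} (hs : s ∈ Icc x y) (ht : t ∈ Icc x y)
    (hst : s ≤ t) : c * (t - s) ≤ v t - v s := by
  refine Convex.mul_sub_le_image_sub_of_le_deriv (convex_Icc x y)
    (fun t ht => (hv t ht).continuousAt.continuousWithinAt)
    (fun x hx => (hv x (interior_subset hx)).differentiableAt.differentiableWithinAt) ?_ s hs t ht hst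
  intro x hx
  rw [(hv x (interior_subset hx)).deriv]
  exact hc x (interior_subset hx)

theorem vdc2a {φ v w : ℝ → ℝ} {x y l : ℝ} (hxy : x ≤ y)
    (hφ : ∀ t ∈ Icc x y, HasDerivAt φ (v t) t) (hv : ∀ t ∈ Icc x y, HasDerivAt v (w t) t)
    (hw : ContinuousOn w (Icc x y)) (hl : 0 < l) (hwl : ∀ t ∈ Icc x y, l ≤ w t)
    (h0 : 0 ≤ v x) : ‖∫ t in x..y, ex (φ t)‖ ≤ 4 / √l := by
  have hs : 0 < √l := Real.sqrt_pos.mpr hl
  have hss : √l * √l = l := Real.mul_self_sqrt hl.le
  rcases le_or_gt y (x + 1 / √l) with h | h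
  · refine (len_le hxy).trans ?_
    have : (1 : ℝ) / √l ≤ 4 / √l := by gcongr; norm_num
    linarith
  · have hm1 : x ≤ x + 1 / √l := by
      have : 0 < 1 / √l := by positivity
      linarith
    have hsub : Icc (x + 1 / √l) y ⊆ Icc x y := Icc_subset_Icc_left hm1
    have hi : ∀ a b : ℝ, x ≤ a → a ≤ b → b ≤ y → IntervalIntegrable (fun t => ex (φ t)) volume a b := by
      intro a b ha hab hb
      apply ContinuousOn.intervalIntegrable
      rw [uIcc_of_le hab]
      exact contOn_ex fun t ht => hφ t ⟨ha.trans ht.1, ht.2.trans hb⟩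
    rw [← intervalIntegral.integral_add_adjacent_intervals (hi _ _ le_rfl hm1 h.le)
      (hi _ _ hm1 h.le le_rfl)]
    have h1 : ‖∫ t in (x + 1 / √l)..y, ex (φ t)‖ ≤ 3 / √l := by
      apply vdc1 h.le (fun t ht => hφ t (hsub ht)) (fun t ht => hv t (hsub ht)) (hw.mono hsub) hs
      · intro t ht
        linarith [hwl t (hsub ht)]
      · left
        intro t ht
        have h2 := v_mono hv hwl (s := x) (t := t) ⟨le_rfl, hxy⟩ (hsub ht) (hm1.trans ht.1)
        have h3 : l * (1 / √l) ≤ l * (t - x) := by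
          apply mul_le_mul_of_nonneg_left _ hl.le
          linarith [ht.1]
        have h4 : l * (1 / √l) = √l := by
          field_simp
          nlinarith
        linarith
    have h2 : ‖∫ t in x..(x + 1 / √l), ex (φ t)‖ ≤ 1 / √l := (len_le hm1).trans (by linarith)
    refine (norm_add_le _ _).trans ?_
    have : (4 : ℝ) / √l = 1 / √l + 3 / √l := by ring
    linarith

theorem vdc2b {φ v w : ℝ → ℝ} {x y l : ℝ} (hxy : x ≤ y)
    (hφ : ∀ t ∈ Icc x y, HasDerivAt φ (v t) t) (hv : ∀ t ∈ Icc x y, HasDerivAt v (w t) t)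
    (hw : ContinuousOn w (Icc x y)) (hl : 0 < l) (hwl : ∀ t ∈ Icc x y, l ≤ w t)
    (h0 : v y ≤ 0) : ‖∫ t in x..y, ex (φ t)‖ ≤ 4 / √l := by
  have hs : 0 < √l := Real.sqrt_pos.mpr hl
  have hss : √l * √l = l := Real.mul_self_sqrt hl.le
  rcases le_or_gt (y - 1 / √l) x with h | h
  · refine (len_le hxy).trans ?_
    have : (1 : ℝ) / √l ≤ 4 / √l := by gcongr; norm_num
    linarith
  · have hm1 : y - 1 / √l ≤ y := by
      have : 0 < 1 / √l := by positivity
      linarith
    have hsub : Icc x (y - 1 / √l) ⊆ Icc x y := Icc_subset_Icc_right hm1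
    have hi : ∀ a b : ℝ, x ≤ a → a ≤ b → b ≤ y → IntervalIntegrable (fun t => ex (φ t)) volume a b := by
      intro a b ha hab hb
      apply ContinuousOn.intervalIntegrable
      rw [uIcc_of_le hab]
      exact contOn_ex fun t ht => hφ t ⟨ha.trans ht.1, ht.2.trans hb⟩
    rw [← intervalIntegral.integral_add_adjacent_intervals (hi _ _ le_rfl h.le hm1)
      (hi _ _ h.le hm1 le_rfl)]
    have h1 : ‖∫ t in x..(y - 1 / √l), ex (φ t)‖ ≤ 3 / √l := by
      apply vdc1 h.le (fun t ht => hφ t (hsub ht)) (fun t ht => hv t (hsub ht)) (hw.mono hsub) hs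
      · intro t ht
        linarith [hwl t (hsub ht)]
      · right
        intro t ht
        have h2 := v_mono hv hwl (s := t) (t := y) (hsub ht) ⟨hxy, le_rfl⟩ (ht.2.trans hm1)
        have h3 : l * (1 / √l) ≤ l * (y - t) := by
          apply mul_le_mul_of_nonneg_left _ hl.le
          linarith [ht.2]
        have h4 : l * (1 / √l) = √l := by
          field_simp
          nlinarith
        linarith
    have h2 : ‖∫ t in (y - 1 / √l)..y, ex (φ t)‖ ≤ 1 / √l := (len_le hm1).trans (by linarith)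
    refine (norm_add_le _ _).trans ?_
    have : (4 : ℝ) / √l = 3 / √l + 1 / √l := by ring
    linarith

/-- second derivative test -/
theorem vdc2 {φ v w : ℝ → ℝ} {x y l : ℝ} (hxy : x ≤ y)
    (hφ : ∀ t ∈ Icc x y, HasDerivAt φ (v t) t) (hv : ∀ t ∈ Icc x y, HasDerivAt v (w t) t)
    (hw : ContinuousOn w (Icc x y)) (hl : 0 < l) (hwl : ∀ t ∈ Icc x y, l ≤ w t) :
    ‖∫ t in x..y, ex (φ t)‖ ≤ 8 / √l := by
  have hs : 0 < √l := Real.sqrt_pos.mpr hl
  have h48 : (4 : ℝ) / √l ≤ 8 / √l := by gcongr; norm_num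
  rcases le_or_gt 0 (v x) with h | h
  · exact (vdc2a hxy hφ hv hw hl hwl h).trans h48
  rcases le_or_gt (v y) 0 with h' | h'
  · exact (vdc2b hxy hφ hv hw hl hwl h').trans h48
  obtain ⟨t0, ht0, hv0⟩ := intermediate_value_Icc hxy
    (fun t ht => (hv t ht).continuousAt.continuousWithinAt) (show (0 : ℝ) ∈ Icc (v x) (v y) from
      ⟨h.le, h'.le⟩)
  have hs1 : Icc x t0 ⊆ Icc x y := Icc_subset_Icc_right ht0.2
  have hs2 : Icc t0 y ⊆ Icc x y := Icc_subset_Icc_left ht0.1
  have hi : ∀ a b : ℝ, x ≤ a → a ≤ b → b ≤ y → IntervalIntegrable (fun t => ex (φ t)) volume a b := by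
    intro a b ha hab hb
    apply ContinuousOn.intervalIntegrable
    rw [uIcc_of_le hab]
    exact contOn_ex fun t ht => hφ t ⟨ha.trans ht.1, ht.2.trans hb⟩
  rw [← intervalIntegral.integral_add_adjacent_intervals (hi _ _ le_rfl ht0.1 ht0.2)
    (hi _ _ ht0.1 ht0.2 le_rfl)]
  have h1 := vdc2b ht0.1 (fun t ht => hφ t (hs1 ht)) (fun t ht => hv t (hs1 ht)) (hw.mono hs1) hl
    (fun t ht => hwl t (hs1 ht)) hv0.le
  have h2 := vdc2a ht0.2 (fun t ht => hφ t (hs2 ht)) (fun t ht => hv t (hs2 ht)) (hw.mono hs2) hl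
    (fun t ht => hwl t (hs2 ht)) hv0.ge
  refine (norm_add_le _ _).trans ?_
  have : (8 : ℝ) / √l = 4 / √l + 4 / √l := by ring
  linarith

/-- second derivative test, both signs -/
theorem vdc2' {φ v w : ℝ → ℝ} {x y l : ℝ} (hxy : x ≤ y)
    (hφ : ∀ t ∈ Icc x y, HasDerivAt φ (v t) t) (hv : ∀ t ∈ Icc x y, HasDerivAt v (w t) t)
    (hw : ContinuousOn w (Icc x y)) (hl : 0 < l)
    (hwl : (∀ t ∈ Icc x y, l ≤ w t) ∨ (∀ t ∈ Icc x y, w t ≤ -l)) :
    ‖∫ t in x..y, ex (φ t)‖ ≤ 8 / √l := by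
  rcases hwl with h | h
  · exact vdc2 hxy hφ hv hw hl h
  have h1 := vdc2 (φ := fun t => -φ t) (v := fun t => -v t) (w := fun t => -w t) hxy
    (fun t ht => (hφ t ht).neg) (fun t ht => (hv t ht).neg) hw.neg hl
    (fun t ht => by linarith [h t ht])
  have h2 : ∫ t in x..y, ex (-φ t) = (starRingEnd ℂ) (∫ t in x..y, ex (φ t)) := by
    rw [intervalIntegral.integral_of_le hxy, intervalIntegral.integral_of_le hxy, ← integral_conj]
    congr 1
    ext t
    rw [conj_ex]
  rw [h2, RCLike.norm_conj] at h1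
  exact h1

theorem rpow_low {κ R t : ℝ} (hR : 1 ≤ R) (ht : t ∈ Icc (1 / R) R) : R ^ (-|κ|) ≤ t ^ κ := by
  have hR0 : 0 < R := by linarith
  have ht0 : 0 < t := lt_of_lt_of_le (by positivity) ht.1
  rw [Real.rpow_def_of_pos hR0, Real.rpow_def_of_pos ht0]
  apply Real.exp_le_exp.mpr
  have h1 : Real.log t ≤ Real.log R := Real.log_le_log ht0 ht.2
  have h2 : -Real.log R ≤ Real.log t := by
    have := Real.log_le_log (by positivity) ht.1
    rwa [one_div, Real.log_inv] at this
  have h3 : |Real.log t| ≤ Real.log R := abs_le.mpr ⟨h2, h1⟩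
  have h4 : |Real.log t * κ| ≤ Real.log R * |κ| := by
    rw [abs_mul]
    exact mul_le_mul_of_nonneg_right h3 (abs_nonneg _)
  have h5 := neg_abs_le (Real.log t * κ)
  linarith

theorem t_OSC : S_OSC := by
  intro κ R hκ0 hκ1 hR
  have hR0 : 0 < R := by linarith
  have hRR : 1 / R ≤ R := by
    rw [div_le_iff₀ hR0]
    nlinarith
  have hkk : 0 < |κ * (κ - 1)| := abs_pos.mpr (mul_ne_zero hκ0 (sub_ne_zero.mpr hκ1))
  set l0 : ℝ := |κ * (κ - 1)| * R ^ (-|κ - 2|) with hl0
  have hl0p : 0 < l0 := mul_pos hkk (Real.rpow_pos_of_pos hR0 _)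
  refine ⟨8 / √l0, by positivity, ?_, ?_⟩
  · intro u v hv
    have hvp : 0 < |v| := abs_pos.mpr hv
    have hpos : ∀ t ∈ Icc (1 / R) R, 0 < t := fun t ht => lt_of_lt_of_le (by positivity) ht.1
    have hsq : 8 / √(|v| * l0) = 8 / √l0 / √|v| := by
      rw [Real.sqrt_mul hvp.le, div_div, mul_comm]
    rw [← hsq]
    refine vdc2' (φ := fun t => u * t + v * t ^ κ) (v := fun t => u + v * (κ * t ^ (κ - 1)))
      (w := fun t => v * (κ * ((κ - 1) * t ^ (κ - 2)))) hRR ?_ ?_ ?_ (by positivity) ?_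
    · intro t ht
      have h1 := ((hasDerivAt_id t).const_mul u).add
        ((Real.hasDerivAt_rpow_const (p := κ) (Or.inl (hpos t ht).ne')).const_mul v)
      refine h1.congr_deriv ?_
      simp
    · intro t ht
      have h1 := (((Real.hasDerivAt_rpow_const (p := κ - 1)
        (Or.inl (hpos t ht).ne')).const_mul κ).const_mul v).const_add u
      refine h1.congr_deriv ?_
      rw [show κ - 1 - 1 = κ - 2 by ring]
    · intro t ht
      have := (Real.continuousAt_rpow_const t (κ - 2) (Or.inl (hpos t ht).ne')).continuousWithinAt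
        (s := Icc (1 / R) R)
      exact continuousWithinAt_const.mul (continuousWithinAt_const.mul
        (continuousWithinAt_const.mul this))
    · have hlow : ∀ t ∈ Icc (1 / R) R, R ^ (-|κ - 2|) ≤ t ^ (κ - 2) := fun t ht => rpow_low hR ht
      rcases lt_or_gt_of_ne (mul_ne_zero hv (mul_ne_zero hκ0 (sub_ne_zero.mpr hκ1))) with h | h
      · right
        intro t ht
        have h1 : |v| * l0 = -(v * (κ * (κ - 1))) * R ^ (-|κ - 2|) := by
          rw [hl0, ← abs_of_neg h, abs_mul v]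
          ring
        rw [h1]
        have h2 := mul_le_mul_of_nonneg_left (hlow t ht) (by linarith : 0 ≤ -(v * (κ * (κ - 1))))
        nlinarith
      · left
        intro t ht
        have h1 : |v| * l0 = (v * (κ * (κ - 1))) * R ^ (-|κ - 2|) := by
          rw [hl0, ← abs_of_pos h, abs_mul v]
          ring
        rw [h1]
        have h2 := mul_le_mul_of_nonneg_left (hlow t ht) (by linarith : 0 ≤ (v * (κ * (κ - 1))))
        nlinarith
  · intro u hu
    have hI : ((u : ℂ) * Complex.I) ≠ 0 := mul_ne_zero (by exact_mod_cast hu) Complex.I_ne_zero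
    have hder : ∀ t ∈ uIcc (1 / R) R, HasDerivAt (fun t => ex (u * t) / ((u : ℂ) * Complex.I))
        (ex (u * t)) t := by
      intro t _
      have h1 := (hasDerivAt_ex (φ := fun t => u * t) (v := u * 1)
        ((hasDerivAt_id t).const_mul u)).div_const ((u : ℂ) * Complex.I)
      refine h1.congr_deriv ?_
      rw [mul_one, mul_div_assoc, div_self hI, mul_one]
    rw [intervalIntegral.integral_eq_sub_of_hasDerivAt hder]
    · refine (norm_sub_le _ _).trans ?_
      have h1 : ∀ t : ℝ, ‖ex (u * t) / ((u : ℂ) * Complex.I)‖ = 1 / |u| := by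
        intro t
        rw [norm_div, norm_ex, norm_mul, Complex.norm_I, mul_one, Complex.norm_real,
          Real.norm_eq_abs]
      rw [h1, h1]
      apply le_of_eq
      ring
    · apply Continuous.intervalIntegrable
      unfold ex
      fun_prop

end Pool.Agent.D0H9.CC
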