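import Pool.Agent.D0H61.CC.Stm

/-! `S_WIN`: a set which is large up to `X` has a short window with many elements. -/

set_option autoImplicit false

namespace Pool.Agent.D0H9.CC

open MeasureTheory Filter Topology Finset Pool.Agent.D0H61.CC

open Classical in
/-- the number of the elements of `A` in `(N, (1 + η) N]` -/
noncomputable def wn (A : Set ℕ) (η : ℝ) (N : ℕ) : ℕ :=
  ((Icc 1 (2 * N)).filter fun n : ℕ => n ∈ A ∧ N < n ∧ (n : ℝ) ≤ (1 + η) * N).card

theorem upTo_le (A : Set ℕ) (N : ℕ) : (upTo A N).card ≤ N := by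
  classical
  unfold upTo
  refine (card_filter_le _ _).trans ?_
  simp

theorem upTo_step (A : Set ℕ) (η : ℝ) {N N' : ℕ} (h : (N : ℝ) ≤ (1 + η) * N') (hN : N ≤ 2 * N') :
    (upTo A N).card ≤ (upTo A N').card + wn A η N' := by
  classical
  unfold upTo wn
  rw [← card_union_add_card_inter]
  refine le_trans (card_le_card ?_) (Nat.le_add_right _ _)
  intro n hn
  rw [mem_filter, mem_Icc] at hn
  rw [mem_union, mem_filter, mem_filter, mem_Icc, mem_Icc]
  rcases le_or_gt n N' with h1 | h1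
  · exact Or.inl ⟨⟨hn.1.1, h1⟩, hn.2⟩
  · refine Or.inr ⟨⟨hn.1.1, hn.1.2.trans hN⟩, hn.2, h1, ?_⟩
    refine le_trans ?_ h
    exact_mod_cast hn.1.2

theorem upTo_bound (A : Set ℕ) {η δ : ℝ} (hη : 0 < η) (hη1 : η ≤ 1) (hδ : 0 ≤ δ) {Y : ℕ}
    (hY : 2 / η ≤ Y) (hw : ∀ M : ℕ, Y ≤ M → (wn A η M : ℝ) ≤ δ * M) (N : ℕ) :
    ((upTo A N).card : ℝ) ≤ 2 * Y + 4 / η * δ * N := by
  induction N using Nat.strong_induction_on with
  | _ N ih =>
    rcases le_or_gt N (2 * Y) with h | h
    · have h1 : ((upTo A N).card : ℝ) ≤ N := by exact_mod_cast upTo_le A N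
      have h2 : (N : ℝ) ≤ 2 * Y := by exact_mod_cast h
      have h3 : 0 ≤ 4 / η * δ * N := by positivity
      linarith
    · have hN : 2 * (Y : ℝ) < N := by exact_mod_cast h
      have h4 : 4 / η < N := by
        have : 4 / η = 2 * (2 / η) := by ring
        linarith
      have h4' : 4 < N * η := by rwa [div_lt_iff₀ hη] at h4
      set N' : ℕ := ⌈(N : ℝ) / (1 + η)⌉₊ with hN'
      have h5 : (N : ℝ) / (1 + η) ≤ N' := Nat.le_ceil _
      have h6 : (N' : ℝ) < (N : ℝ) / (1 + η) + 1 := Nat.ceil_lt_add_one (by positivity)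
      have h7 : (N : ℝ) / (1 + η) ≤ N * (1 - η / 2) := by
        rw [div_le_iff₀ (by linarith)]
        nlinarith
      have h8 : (N' : ℝ) ≤ N * (1 - η / 4) := by nlinarith
      have h9 : N' < N := by
        have : (N' : ℝ) < N := by nlinarith
        exact_mod_cast this
      have h10 : (N : ℝ) ≤ (1 + η) * N' := by
        rw [div_le_iff₀ (by linarith)] at h5
        linarith
      have h11 : N ≤ 2 * N' := by
        have : (N : ℝ) ≤ 2 * N' := by
          have : (0 : ℝ) ≤ N' := Nat.cast_nonneg _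
          nlinarith
        exact_mod_cast this
      have h12 : Y ≤ N' := by omega
      have h13 : ((upTo A N).card : ℝ) ≤ (upTo A N').card + wn A η N' := by
        exact_mod_cast upTo_step A η h10 h11
      have h14 := ih N' h9
      have h15 := hw N' h12
      have h16 : (4 / η * δ + δ) * N' ≤ (4 / η * δ + δ) * (N * (1 - η / 4)) :=
        mul_le_mul_of_nonneg_left h8 (by positivity)
      have h17 : (4 / η * δ + δ) * (N * (1 - η / 4)) = 4 / η * δ * N - η / 4 * δ * N := by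
        field_simp
        ring
      have h18 : 0 ≤ η / 4 * δ * N := by positivity
      linarith

theorem t_WIN : S_WIN := by
  intro C A hA η hη hη1
  by_contra hcon
  rw [not_frequently] at hcon
  have hcon' : ∀ᶠ N : ℕ in atTop, (wn A η N : ℝ) * Real.log N ^ (C + 1) < N := by
    filter_upwards [hcon] with N hN
    unfold wn
    convert not_le.mp hN using 4
  obtain ⟨N₁, hN₁⟩ := eventually_atTop.mp hcon'
  have hs : Tendsto (fun X : ℕ => √(X : ℝ)) atTop atTop :=
    Real.tendsto_sqrt_atTop.comp tendsto_natCast_atTop_atTop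
  have hlog : Tendsto (fun X : ℕ => Real.log (X : ℝ)) atTop atTop :=
    Real.tendsto_log_atTop.comp tendsto_natCast_atTop_atTop
  have e1 : ∀ᶠ X : ℕ in atTop, Real.log (√(X : ℝ)) ^ C ≤ 1 / (16 * 2 ^ C) * √(X : ℝ) := by
    have h1 := (Real.isLittleO_pow_log_id_atTop (n := C)).bound
      (show (0 : ℝ) < 1 / (16 * 2 ^ C) by positivity)
    filter_upwards [hs.eventually h1] with X hX
    simp only [id, Real.norm_eq_abs] at hX
    rw [abs_of_nonneg (Real.sqrt_nonneg _)] at hX
    exact (le_abs_self _).trans hX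
  obtain ⟨X, hX, h1, h2, h3, h4, h5⟩ := (hA.and_eventually (e1.and
    ((hs.eventually (eventually_ge_atTop (2 / η))).and
    ((hs.eventually (eventually_ge_atTop (N₁ : ℝ))).and
    ((hs.eventually (eventually_ge_atTop (Real.exp 1))).and
    (hlog.eventually (eventually_gt_atTop (16 / η * 2 ^ (C + 1))))))))).exists
  set Y : ℕ := ⌈√(X : ℝ)⌉₊ with hY
  have hYs : √(X : ℝ) ≤ Y := Nat.le_ceil _
  have hYs' : (Y : ℝ) < √(X : ℝ) + 1 := Nat.ceil_lt_add_one (Real.sqrt_nonneg _)
  have hs1 : 1 ≤ √(X : ℝ) := le_trans (by have := Real.add_one_le_exp (1 : ℝ); linarith) h4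
  have hX0 : (0 : ℝ) ≤ X := Nat.cast_nonneg _
  have hXX : √(X : ℝ) * √(X : ℝ) = X := Real.mul_self_sqrt hX0
  have hlY : 1 ≤ Real.log √(X : ℝ) := by
    rw [← Real.log_exp 1]
    exact Real.log_le_log (Real.exp_pos _) h4
  have hlX : Real.log X = 2 * Real.log √(X : ℝ) := by
    conv_lhs => rw [← hXX]
    rw [Real.log_mul (by positivity) (by positivity)]
    ring
  set l : ℝ := Real.log √(X : ℝ) with hl
  have hw : ∀ M : ℕ, Y ≤ M → (wn A η M : ℝ) ≤ 1 / l ^ (C + 1) * M := by
    intro M hM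
    have hM' : √(X : ℝ) ≤ M := hYs.trans (by exact_mod_cast hM)
    have hMN : N₁ ≤ M := by
      have : (N₁ : ℝ) ≤ M := h3.trans hM'
      exact_mod_cast this
    have h6 := hN₁ M hMN
    have h7 : l ≤ Real.log M := Real.log_le_log (by linarith) hM'
    have h8 : l ^ (C + 1) ≤ Real.log M ^ (C + 1) := pow_le_pow_left₀ (by linarith) h7 _
    rw [div_mul_eq_mul_div, one_mul, le_div_iff₀ (by positivity)]
    have h9 : (wn A η M : ℝ) * l ^ (C + 1) ≤ wn A η M * Real.log M ^ (C + 1) :=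
      mul_le_mul_of_nonneg_left h8 (Nat.cast_nonneg _)
    linarith
  have hb := upTo_bound A hη hη1 (by positivity) (h2.trans hYs) hw X
  rw [hlX] at hX
  have hlp : 0 < (2 * l) ^ C := by positivity
  have h10 : ((upTo A X).card : ℝ) * (2 * l) ^ C ≤
      (2 * Y + 4 / η * (1 / l ^ (C + 1)) * X) * (2 * l) ^ C :=
    mul_le_mul_of_nonneg_right hb hlp.le
  have h11 : 4 / η * (1 / l ^ (C + 1)) * X * (2 * l) ^ C = 4 / η * 2 ^ C * X / l := by
    rw [mul_pow, pow_succ]
    field_simp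
  have h12 : 4 / η * 2 ^ C * X / l ≤ X / 4 := by
    rw [div_le_iff₀ (by linarith)]
    rw [hlX] at h5
    have h13 : 16 / η * 2 ^ C ≤ l := by
      rw [pow_succ] at h5
      linarith
    have h14 : (X : ℝ) / 4 * (16 / η * 2 ^ C) ≤ X / 4 * l :=
      mul_le_mul_of_nonneg_left h13 (by positivity)
    have h15 : (X : ℝ) / 4 * (16 / η * 2 ^ C) = 4 / η * 2 ^ C * X := by ring
    linarith
  have h16 : 2 * (Y : ℝ) * (2 * l) ^ C ≤ X / 4 := by
    have h17 : 2 * (Y : ℝ) ≤ 4 * √(X : ℝ) := by linarith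
    have h18 : (2 * l) ^ C ≤ 1 / 16 * √(X : ℝ) := by
      rw [mul_pow]
      have := mul_le_mul_of_nonneg_left h1 (show (0 : ℝ) ≤ 2 ^ C by positivity)
      refine this.trans (le_of_eq ?_)
      field_simp
    calc 2 * (Y : ℝ) * (2 * l) ^ C ≤ (4 * √(X : ℝ)) * (1 / 16 * √(X : ℝ)) := by gcongr
      _ = X / 4 := by nlinarith
  have hXp : (0 : ℝ) < X := by nlinarith
  nlinarith

end Pool.Agent.D0H9.CC
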